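import Mathlib

/-! # Common roots modulo a prime and the resultant -/

open Polynomial Finset

namespace Pool.Agent.Helper28.TF

/-- a column of the Sylvester matrix, evaluated -/
lemma sum_shift (h : ℤ[X]) (N a b : ℕ) (hab : a + b < N) (hh : h.natDegree ≤ b) (v : ℤ) :
    ∑ i : Fin N, v ^ (i : ℕ) * (if (i : ℕ) ∈ Set.Icc a (a + b) then h.coeff (i - a) else 0)
      = v ^ a * h.eval v := by
  rw [Fin.sum_univ_eq_sum_range
    (fun i => v ^ i * (if i ∈ Set.Icc a (a + b) then h.coeff (i - a) else 0)) N]
  have h1 : ∑ i ∈ range N, v ^ i * (if i ∈ Set.Icc a (a + b) then h.coeff (i - a) else 0)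
      = ∑ i ∈ Finset.Ico a (a + (b + 1)), v ^ i * h.coeff (i - a) := by
    rw [← Finset.sum_subset (s₁ := Finset.Ico a (a + (b + 1)))]
    · apply Finset.sum_congr rfl
      intro i hi
      rw [Finset.mem_Ico] at hi
      rw [if_pos]
      exact ⟨hi.1, by omega⟩
    · intro i hi
      rw [Finset.mem_Ico] at hi
      rw [Finset.mem_range]
      omega
    · intro i _ hi
      rw [Finset.mem_Ico] at hi
      rw [if_neg]
      · simp
      · rintro ⟨h1, h2⟩
        exact hi ⟨h1, by omega⟩
  rw [h1, Finset.sum_Ico_eq_sum_range]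
  have h2 : a + (b + 1) - a = b + 1 := by omega
  rw [h2, Polynomial.eval_eq_sum_range' (n := b + 1) (by omega), Finset.mul_sum]
  apply Finset.sum_congr rfl
  intro i _
  rw [Nat.add_sub_cancel_left, pow_add]
  ring

/-- **Common roots modulo a prime divide the resultant.** -/
theorem prime_pow_dvd_resultant (f g : ℤ[X]) (m n : ℕ) (hf : f.natDegree ≤ m)
    (hg : g.natDegree ≤ n) (p : ℕ) (hp : p.Prime) (hmn : m + n ≤ p) (T : Finset ℕ)
    (hT : ∀ t ∈ T, t < p) (hTc : T.card ≤ m + n)
    (hTf : ∀ t ∈ T, (p : ℤ) ∣ f.eval (t : ℤ)) (hTg : ∀ t ∈ T, (p : ℤ) ∣ g.eval (t : ℤ)) :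
    (p : ℤ) ^ T.card ∣ resultant f g m n := by
  classical
  -- extend `T` to a set of `m + n` residues
  obtain ⟨T', hT1, hT2, hT3⟩ := Finset.exists_subsuperset_card_eq (s := T) (t := range p)
    (fun t ht => Finset.mem_range.mpr (hT t ht)) hTc (by rw [Finset.card_range]; exact hmn)
  let e : Fin (m + n) ≃ T' := (T'.equivFinOfCardEq hT3).symm
  let v : Fin (m + n) → ℤ := fun i => ((e i : ℕ) : ℤ)
  let w : Fin (m + n) → ℤ := fun i => if (e i : ℕ) ∈ T then (p : ℤ) else 1
  have hvlt : ∀ i, 0 ≤ v i ∧ v i < p := by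
    intro i
    refine ⟨by positivity, ?_⟩
    have := hT2 (e i).2
    rw [Finset.mem_range] at this
    change (((e i : ℕ)) : ℤ) < (p : ℤ)
    exact_mod_cast this
  have hvinj : Function.Injective v := by
    intro i j hij
    apply e.injective
    apply Subtype.ext
    have hij' : (((e i : ℕ)) : ℤ) = ((e j : ℕ) : ℤ) := hij
    exact_mod_cast hij'
  -- the product with the Vandermonde matrix
  have hentry : ∀ i j, ∃ b : ℤ, (Matrix.vandermonde v * sylvester f g m n) i j = w i * b := by
    intro i j
    have hcol : ∃ (a : ℕ) (h : ℤ[X]), (h = f ∨ h = g) ∧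
        (Matrix.vandermonde v * sylvester f g m n) i j = v i ^ a * h.eval (v i) := by
      rw [Matrix.mul_apply]
      induction j using Fin.addCases with
      | left j =>
        refine ⟨j, g, Or.inr rfl, ?_⟩
        rw [← sum_shift g (m + n) j n (by omega) hg (v i)]
        apply Finset.sum_congr rfl
        intro x _
        simp [sylvester, Matrix.vandermonde_apply]
      | right j =>
        refine ⟨j, f, Or.inl rfl, ?_⟩
        rw [← sum_shift f (m + n) j m (by omega) hf (v i)]
        apply Finset.sum_congr rfl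
        intro x _
        simp [sylvester, Matrix.vandermonde_apply]
    obtain ⟨a, h, hh, heq⟩ := hcol
    rw [heq]
    by_cases hi : (e i : ℕ) ∈ T
    · have hd : (p : ℤ) ∣ h.eval (v i) := by
        rcases hh with rfl | rfl
        · exact hTf _ hi
        · exact hTg _ hi
      obtain ⟨c, hc⟩ := hd
      refine ⟨v i ^ a * c, ?_⟩
      simp only [w, if_pos hi]
      rw [hc]
      ring
    · refine ⟨v i ^ a * h.eval (v i), ?_⟩
      simp only [w, if_neg hi]
      ring
  choose B hB using hentry
  have hmat : Matrix.vandermonde v * sylvester f g m n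
      = Matrix.of (fun i j => w i * (Matrix.of B) i j) := by
    ext i j
    rw [hB]
    rfl
  have hdet : (Matrix.vandermonde v).det * resultant f g m n = (∏ i, w i) * (Matrix.of B).det := by
    rw [resultant, ← Matrix.det_mul, hmat, Matrix.det_mul_column]
  have hw : ∏ i, w i = (p : ℤ) ^ T.card := by
    simp only [w]
    rw [Finset.prod_ite, Finset.prod_const_one, mul_one, Finset.prod_const]
    congr 1
    have h1 : (univ.filter fun i => ((e i : ℕ) ∈ T)).card
        = ((univ.filter fun i => ((e i : ℕ) ∈ T)).image (fun i => (e i : ℕ))).card := by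
      rw [Finset.card_image_of_injective]
      intro i j hij
      exact e.injective (Subtype.ext hij)
    rw [h1]
    congr 1
    ext t
    simp only [Finset.mem_image, Finset.mem_filter, Finset.mem_univ, true_and]
    constructor
    · rintro ⟨i, hi, rfl⟩
      exact hi
    · intro ht
      refine ⟨e.symm ⟨t, hT1 ht⟩, ?_, ?_⟩ <;> simp [ht]
  have hcop : IsCoprime ((p : ℤ) ^ T.card) (Matrix.vandermonde v).det := by
    apply IsCoprime.pow_left
    rw [Matrix.det_vandermonde]
    apply IsCoprime.prod_right
    intro i _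
    apply IsCoprime.prod_right
    intro j hj
    rw [Finset.mem_Ioi] at hj
    rw [Prime.coprime_iff_not_dvd (Nat.prime_iff_prime_int.mp hp)]
    intro hd
    have hne : v j - v i ≠ 0 := by
      intro h0
      have : v j = v i := by linarith
      exact (ne_of_gt hj) (hvinj this)
    have h1 := Int.le_of_dvd (a := (p : ℤ)) (b := |v j - v i|) (abs_pos.mpr hne)
      ((dvd_abs _ _).mpr hd)
    have h2 := hvlt i
    have h3 := hvlt j
    have h4 : |v j - v i| < p := by
      rw [abs_lt]
      constructor <;> linarith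
    linarith
  have hdvd : (p : ℤ) ^ T.card ∣ (Matrix.vandermonde v).det * resultant f g m n := by
    rw [hdet, hw]
    exact Dvd.intro _ rfl
  exact hcop.dvd_of_dvd_mul_left hdvd

end Pool.Agent.Helper28.TF
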