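import Mathlib
import Pool.Agent.Helper28.TF.Res

/-! # The derivative of `(X + s + 1) ⋯ (X + s + k)` and resultants of two of them -/

open Polynomial Finset

namespace Pool.Agent.Helper28.TF

/-- `(X + s + 1) ⋯ (X + s + k)` over a ring -/
noncomputable def F (R : Type*) [CommRing R] (s k : ℕ) : R[X] :=
  ∏ j ∈ range k, (X + C ((s + j + 1 : ℕ) : R))

/-- its derivative -/
noncomputable def P (R : Type*) [CommRing R] (s k : ℕ) : R[X] := derivative (F R s k)

lemma F_monic (R : Type*) [CommRing R] (s k : ℕ) : (F R s k).Monic :=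
  monic_prod_of_monic _ _ fun _ _ => monic_X_add_C _

lemma F_natDegree (R : Type*) [CommRing R] [Nontrivial R] (s k : ℕ) :
    (F R s k).natDegree = k := by
  unfold F
  rw [natDegree_prod_of_monic _ _ fun _ _ => monic_X_add_C _]
  simp only [natDegree_X_add_C, Finset.sum_const, Finset.card_range, smul_eq_mul, mul_one]

lemma P_natDegree_le (R : Type*) [CommRing R] [Nontrivial R] (s k : ℕ) :
    (P R s k).natDegree ≤ k - 1 := by
  unfold P
  refine (natDegree_derivative_le _).trans ?_
  rw [F_natDegree]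

lemma P_coeff (R : Type*) [CommRing R] [Nontrivial R] (s k : ℕ) (hk : 1 ≤ k) :
    (P R s k).coeff (k - 1) = k := by
  unfold P
  rw [coeff_derivative]
  have h1 : (F R s k).coeff (k - 1 + 1) = 1 := by
    have := (F_monic R s k).coeff_natDegree
    rw [F_natDegree] at this
    rw [Nat.sub_add_cancel hk]
    exact this
  rw [h1, one_mul]
  have : ((k - 1 : ℕ) : R) + 1 = ((k - 1 + 1 : ℕ) : R) := by push_cast; ring
  rw [this, Nat.sub_add_cancel hk]

lemma F_map {R S : Type*} [CommRing R] [CommRing S] (φ : R →+* S) (s k : ℕ) :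
    (F R s k).map φ = F S s k := by
  unfold F
  rw [Polynomial.map_prod]
  apply Finset.prod_congr rfl
  intro j _
  simp

lemma P_map {R S : Type*} [CommRing R] [CommRing S] (φ : R →+* S) (s k : ℕ) :
    (P R s k).map φ = P S s k := by
  unfold P
  rw [← derivative_map, F_map]

lemma P_eval (R : Type*) [CommRing R] (s k : ℕ) (x : R) :
    (P R s k).eval x
      = ∑ j ∈ range k, ∏ i ∈ (range k).erase j, (x + ((s + i + 1 : ℕ) : R)) := by
  classical
  unfold P F
  rw [derivative_prod_finset]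
  simp only [derivative_add, derivative_X, derivative_C, add_zero, mul_one]
  rw [eval_finsetSum]
  apply Finset.sum_congr rfl
  intro j _
  rw [eval_prod]
  apply Finset.prod_congr rfl
  intro i _
  simp

/-- a sum of products of nonnegative numbers, at most one of which is zero, is positive -/
lemma sum_prod_erase_pos (k : ℕ) (i0 : ℕ) (hi0 : i0 ∈ range k) (a : ℕ → ℝ)
    (ha : ∀ i ∈ range k, 0 ≤ a i) (ha' : ∀ i ∈ range k, i ≠ i0 → 0 < a i) :
    0 < ∑ j ∈ range k, ∏ i ∈ (range k).erase j, a i := by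
  have h0 : 0 < ∏ i ∈ (range k).erase i0, a i :=
    Finset.prod_pos fun i hi => ha' i (Finset.mem_of_mem_erase hi) (Finset.ne_of_mem_erase hi)
  refine lt_of_lt_of_le h0 ?_
  exact Finset.single_le_sum (f := fun j => ∏ i ∈ (range k).erase j, a i)
    (fun j _ => Finset.prod_nonneg fun i hi => ha i (Finset.mem_of_mem_erase hi)) hi0

lemma P_pos (s k : ℕ) (hk : 1 ≤ k) (r : ℝ) (hr : -((s : ℝ) + 1) ≤ r) :
    0 < (P ℝ s k).eval r := by
  rw [P_eval]
  apply sum_prod_erase_pos k 0 (Finset.mem_range.mpr hk)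
  · intro i _
    push_cast
    have : (0 : ℝ) ≤ i := by positivity
    linarith
  · intro i _ hi
    push_cast
    have : (1 : ℝ) ≤ i := by exact_mod_cast Nat.one_le_iff_ne_zero.mpr hi
    linarith

lemma P_ne_zero_of_le (s k : ℕ) (hk : 1 ≤ k) (r : ℝ) (hr : r ≤ -((s : ℝ) + k)) :
    (P ℝ s k).eval r ≠ 0 := by
  rw [P_eval]
  have h1 : ∀ j ∈ range k, ∏ i ∈ (range k).erase j, (r + ((s + i + 1 : ℕ) : ℝ))
      = (-1) ^ (k - 1) * ∏ i ∈ (range k).erase j, (-(r + ((s + i + 1 : ℕ) : ℝ))) := by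
    intro j hj
    rw [Finset.prod_neg, Finset.card_erase_of_mem hj, Finset.card_range, ← mul_assoc,
      ← mul_pow]
    simp
  rw [Finset.sum_congr rfl h1, ← Finset.mul_sum]
  apply mul_ne_zero
  · exact pow_ne_zero _ (by norm_num)
  · apply ne_of_gt
    apply sum_prod_erase_pos k (k - 1) (Finset.mem_range.mpr (by omega))
    · intro i hi
      rw [Finset.mem_range] at hi
      push_cast
      have : (i : ℝ) + 1 ≤ k := by exact_mod_cast hi
      linarith
    · intro i hi hne
      rw [Finset.mem_range] at hi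
      push_cast
      have : (i : ℝ) + 1 + 1 ≤ k := by exact_mod_cast (by omega : i + 1 + 1 ≤ k)
      linarith

lemma P_ne_zero (R : Type*) [CommRing R] [Nontrivial R] [CharZero R] (s k : ℕ) (hk : 1 ≤ k) :
    P R s k ≠ 0 := by
  intro h
  have := P_coeff R s k hk
  rw [h, coeff_zero] at this
  have hk' : (k : R) ≠ 0 := by exact_mod_cast (by omega : k ≠ 0)
  exact hk' this.symm

lemma P_natDegree (R : Type*) [CommRing R] [Nontrivial R] [CharZero R] (s k : ℕ) (hk : 1 ≤ k) :
    (P R s k).natDegree = k - 1 := by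
  apply le_antisymm (P_natDegree_le R s k)
  apply le_natDegree_of_ne_zero
  rw [P_coeff R s k hk]
  exact_mod_cast (by omega : k ≠ 0)

lemma P_splits (s k : ℕ) (hk : 1 ≤ k) : (P ℝ s k).Splits := by
  rw [splits_iff_card_roots]
  apply le_antisymm (card_roots' _)
  rw [P_natDegree ℝ s k hk]
  have h1 := card_roots_le_derivative (F ℝ s k)
  have h2 : Multiset.card (F ℝ s k).roots = k := by
    have h3 : (F ℝ s k) = ((range k).val.map
        (fun j => X - C (-((s + j + 1 : ℕ) : ℝ)))).prod := by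
      unfold F
      rw [Finset.prod_eq_multiset_prod]
      congr 1
      apply Multiset.map_congr rfl
      intro j _
      rw [C_neg, sub_neg_eq_add]
    have h4 : ((range k).val.map (fun j => X - C (-((s + j + 1 : ℕ) : ℝ))))
        = ((range k).val.map (fun j => -((s + j + 1 : ℕ) : ℝ))).map (fun a => X - C a) := by
      rw [Multiset.map_map]
      rfl
    rw [h3, h4, roots_multiset_prod_X_sub_C]
    simp
  rw [h2] at h1
  change k ≤ Multiset.card (P ℝ s k).roots + 1 at h1
  omega

/-- the roots lie strictly between `-(s + k)` and `-(s + 1)` -/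
lemma P_root (s k : ℕ) (hk : 1 ≤ k) (r : ℝ) (hr : r ∈ (P ℝ s k).roots) :
    -((s : ℝ) + k) < r ∧ r < -((s : ℝ) + 1) := by
  have h1 : (P ℝ s k).eval r = 0 := (mem_roots'.mp hr).2
  constructor
  · by_contra h
    exact P_ne_zero_of_le s k hk r (not_lt.mp h) h1
  · by_contra h
    exact (P_pos s k hk r (not_lt.mp h)).ne' h1

/-- the value of the second polynomial at a root of the first -/
lemma P_eval_bound (k l : ℕ) (hl : 1 ≤ l) (r : ℝ) (h1 : -(k : ℝ) < r)
    (h2 : r < -1) : 0 < (P ℝ k l).eval r ∧ (P ℝ k l).eval r ≤ (l : ℝ) * ((k : ℝ) + l) ^ (l - 1) := by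
  constructor
  · apply P_pos k l hl
    linarith
  · rw [P_eval]
    have h3 : ∀ j ∈ range l, ∏ i ∈ (range l).erase j, (r + ((k + i + 1 : ℕ) : ℝ))
        ≤ ((k : ℝ) + l) ^ (l - 1) := by
      intro j hj
      calc ∏ i ∈ (range l).erase j, (r + ((k + i + 1 : ℕ) : ℝ))
          ≤ ∏ i ∈ (range l).erase j, ((k : ℝ) + l) := by
            apply Finset.prod_le_prod
            · intro i _
              push_cast
              have : (0 : ℝ) ≤ i := by positivity
              linarith
            · intro i hi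
              have hi' := Finset.mem_range.mp (Finset.mem_of_mem_erase hi)
              push_cast
              have : (i : ℝ) + 1 ≤ l := by exact_mod_cast hi'
              linarith
        _ = ((k : ℝ) + l) ^ (l - 1) := by
            rw [Finset.prod_const, Finset.card_erase_of_mem hj, Finset.card_range]
    calc ∑ j ∈ range l, ∏ i ∈ (range l).erase j, (r + ((k + i + 1 : ℕ) : ℝ))
        ≤ ∑ j ∈ range l, ((k : ℝ) + l) ^ (l - 1) := Finset.sum_le_sum h3
      _ = (l : ℝ) * ((k : ℝ) + l) ^ (l - 1) := by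
            rw [Finset.sum_const, Finset.card_range, nsmul_eq_mul]

/-- **The resultant is a nonzero integer of absolute value at most `(k + l) ^ (k l)`.** -/
theorem resultant_bound (k l : ℕ) (hk : 1 ≤ k) (hl : 1 ≤ l) :
    resultant (P ℤ 0 k) (P ℤ k l) (k - 1) (l - 1) ≠ 0 ∧
      |resultant (P ℤ 0 k) (P ℤ k l) (k - 1) (l - 1)| ≤ ((k : ℤ) + l) ^ (k * l) := by
  have h1 : (Int.castRingHom ℝ) (resultant (P ℤ 0 k) (P ℤ k l) (k - 1) (l - 1))
      = (k : ℝ) ^ (l - 1) * ((P ℝ 0 k).roots.map (P ℝ k l).eval).prod := by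
    rw [← resultant_map_map, P_map, P_map]
    have h2 := resultant_eq_prod_eval (P ℝ 0 k) (P ℝ k l) (l - 1) (P_natDegree_le ℝ k l)
      (P_splits 0 k hk)
    rw [P_natDegree ℝ 0 k hk] at h2
    rw [h2]
    congr 2
    rw [leadingCoeff, P_natDegree ℝ 0 k hk, P_coeff ℝ 0 k hk]
  have hroots : ∀ r ∈ (P ℝ 0 k).roots, 0 < (P ℝ k l).eval r ∧
      (P ℝ k l).eval r ≤ (l : ℝ) * ((k : ℝ) + l) ^ (l - 1) := by
    intro r hr
    have h3 := P_root 0 k hk r hr
    apply P_eval_bound k l hl r
    · have := h3.1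
      simpa using this
    · have := h3.2
      simpa using this
  have hpos : 0 < ((P ℝ 0 k).roots.map (P ℝ k l).eval).prod := by
    apply Multiset.prod_pos
    intro a ha
    obtain ⟨r, hr, rfl⟩ := Multiset.mem_map.mp ha
    exact (hroots r hr).1
  have hk0 : (0 : ℝ) < k := by exact_mod_cast hk
  have hl0 : (0 : ℝ) < l := by exact_mod_cast hl
  have hub : ((P ℝ 0 k).roots.map (P ℝ k l).eval).prod
      ≤ ((l : ℝ) * ((k : ℝ) + l) ^ (l - 1)) ^ (k - 1) := by
    have h4 : ((P ℝ 0 k).roots.map (P ℝ k l).eval).prod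
        ≤ ((P ℝ 0 k).roots.map (fun _ => (l : ℝ) * ((k : ℝ) + l) ^ (l - 1))).prod := by
      apply Multiset.prod_map_le_prod_map₀
      · intro r hr
        exact (hroots r hr).1.le
      · intro r hr
        exact (hroots r hr).2
    refine h4.trans ?_
    rw [Multiset.map_const', Multiset.prod_replicate,
      ← (P_splits 0 k hk).natDegree_eq_card_roots, P_natDegree ℝ 0 k hk]
  have hfin : (k : ℝ) ^ (l - 1) * ((P ℝ 0 k).roots.map (P ℝ k l).eval).prod
      ≤ ((k : ℝ) + l) ^ (k * l) := by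
    have hkl : (1 : ℝ) ≤ (k : ℝ) + l := by
      have : (1 : ℝ) ≤ k := by exact_mod_cast hk
      linarith
    have h5 : (k : ℝ) ^ (l - 1) ≤ ((k : ℝ) + l) ^ (l - 1) :=
      pow_le_pow_left₀ hk0.le (by linarith) _
    have h6 : ((l : ℝ) * ((k : ℝ) + l) ^ (l - 1)) ^ (k - 1)
        ≤ (((k : ℝ) + l) ^ l) ^ (k - 1) := by
      apply pow_le_pow_left₀ (by positivity)
      calc (l : ℝ) * ((k : ℝ) + l) ^ (l - 1) ≤ ((k : ℝ) + l) * ((k : ℝ) + l) ^ (l - 1) := by
            apply mul_le_mul_of_nonneg_right (by linarith) (by positivity)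
        _ = ((k : ℝ) + l) ^ l := by
            rw [← pow_succ', Nat.sub_add_cancel hl]
    calc (k : ℝ) ^ (l - 1) * ((P ℝ 0 k).roots.map (P ℝ k l).eval).prod
        ≤ ((k : ℝ) + l) ^ (l - 1) * (((k : ℝ) + l) ^ l) ^ (k - 1) := by
          apply mul_le_mul h5 (hub.trans h6) hpos.le (by positivity)
      _ = ((k : ℝ) + l) ^ (l - 1 + l * (k - 1)) := by
          rw [← pow_mul, ← pow_add]
      _ ≤ ((k : ℝ) + l) ^ (k * l) := by
          apply pow_le_pow_right₀ hkl
          obtain ⟨k', rfl⟩ : ∃ k', k = k' + 1 := ⟨k - 1, by omega⟩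
          have : (k' + 1) * l = l + l * k' := by ring
          rw [this, Nat.add_sub_cancel]
          omega
  have h1' : ((resultant (P ℤ 0 k) (P ℤ k l) (k - 1) (l - 1) : ℤ) : ℝ)
      = (k : ℝ) ^ (l - 1) * ((P ℝ 0 k).roots.map (P ℝ k l).eval).prod := by
    simpa using h1
  constructor
  · intro h0
    rw [h0] at h1'
    have : (0 : ℝ) < (k : ℝ) ^ (l - 1) * ((P ℝ 0 k).roots.map (P ℝ k l).eval).prod := by
      positivity
    rw [← h1'] at this
    simp at this
  · have h7 : ((|resultant (P ℤ 0 k) (P ℤ k l) (k - 1) (l - 1)| : ℤ) : ℝ)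
        ≤ ((k : ℝ) + l) ^ (k * l) := by
      rw [Int.cast_abs, h1', abs_of_pos (by positivity)]
      exact hfin
    exact_mod_cast h7

end Pool.Agent.Helper28.TF
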