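import Mathlib
import Pool.Agent.Helper28.TF.Poly

/-! # Counting common roots over a set of primes, and the Wilson products -/

open Polynomial Finset

namespace Pool.Agent.Helper28.TF

/-- the common zeros modulo `p` of the two polynomials -/
noncomputable def Z (p k l : ℕ) : Finset ℕ := by
  classical
  exact (range p).filter (fun a => (p : ℤ) ∣ (P ℤ 0 k).eval (a : ℤ) ∧
    (p : ℤ) ∣ (P ℤ k l).eval (a : ℤ))

lemma mem_Z (p k l a : ℕ) : a ∈ Z p k l ↔ a < p ∧ (p : ℤ) ∣ (P ℤ 0 k).eval (a : ℤ) ∧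
    (p : ℤ) ∣ (P ℤ k l).eval (a : ℤ) := by
  classical
  simp [Z]

lemma card_Z_le (p k l : ℕ) (hp : p.Prime) (hk : 1 ≤ k) (hkp : k < p) :
    (Z p k l).card ≤ k - 1 := by
  classical
  have : Fact p.Prime := ⟨hp⟩
  have hne : P (ZMod p) 0 k ≠ 0 := by
    intro h
    have := P_coeff (ZMod p) 0 k hk
    rw [h, coeff_zero] at this
    have h2 : ((k : ℕ) : ZMod p) = 0 := this.symm
    rw [ZMod.natCast_eq_zero_iff] at h2
    exact absurd (Nat.le_of_dvd hk h2) (by omega)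
  have h1 : ((Z p k l).image (fun a : ℕ => (a : ZMod p))) ⊆ (P (ZMod p) 0 k).roots.toFinset := by
    intro b hb
    obtain ⟨a, ha, rfl⟩ := Finset.mem_image.mp hb
    rw [mem_Z] at ha
    rw [Multiset.mem_toFinset, mem_roots hne, IsRoot.def]
    have h3 : (P (ZMod p) 0 k) = (P ℤ 0 k).map (Int.castRingHom (ZMod p)) := (P_map _ _ _).symm
    have h4 : ((a : ℕ) : ZMod p) = (Int.castRingHom (ZMod p)) (a : ℤ) := by simp
    rw [h3, h4, eval_map, eval₂_hom]
    rw [eq_intCast, ZMod.intCast_zmod_eq_zero_iff_dvd]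
    exact ha.2.1
  have h2 : (Z p k l).card = ((Z p k l).image (fun a : ℕ => (a : ZMod p))).card := by
    rw [Finset.card_image_of_injOn]
    intro a ha b hb hab
    have ha' := (mem_Z p k l a).mp ha
    have hb' := (mem_Z p k l b).mp hb
    have h5 : ((a : ℕ) : ZMod p) = ((b : ℕ) : ZMod p) := hab
    rw [ZMod.natCast_eq_natCast_iff'] at h5
    rwa [Nat.mod_eq_of_lt ha'.1, Nat.mod_eq_of_lt hb'.1] at h5
  rw [h2]
  calc ((Z p k l).image (fun a : ℕ => (a : ZMod p))).card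
      ≤ (P (ZMod p) 0 k).roots.toFinset.card := Finset.card_le_card h1
    _ ≤ Multiset.card (P (ZMod p) 0 k).roots := Multiset.toFinset_card_le _
    _ ≤ (P (ZMod p) 0 k).natDegree := card_roots' _
    _ ≤ k - 1 := P_natDegree_le _ _ _

/-- **The common zeros, for all primes of a set together.** -/
theorem sum_card_Z (S : Finset ℕ) (k l : ℕ) (hk : 1 ≤ k) (hl : 1 ≤ l)
    (hS : ∀ p ∈ S, p.Prime ∧ k + l ≤ p) : ∑ p ∈ S, (Z p k l).card ≤ k * l := by
  obtain ⟨hR0, hR⟩ := resultant_bound k l hk hl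
  set R := resultant (P ℤ 0 k) (P ℤ k l) (k - 1) (l - 1) with hRdef
  have h1 : ∀ p ∈ S, (p : ℤ) ^ (Z p k l).card ∣ R := by
    intro p hp
    have hpp := (hS p hp).1
    have hkl := (hS p hp).2
    apply prime_pow_dvd_resultant _ _ _ _ (P_natDegree_le ℤ 0 k) (P_natDegree_le ℤ k l) p hpp
      (by omega)
    · intro t ht
      exact ((mem_Z p k l t).mp ht).1
    · exact (card_Z_le p k l hpp hk (by omega)).trans (by omega)
    · intro t ht
      exact ((mem_Z p k l t).mp ht).2.1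
    · intro t ht
      exact ((mem_Z p k l t).mp ht).2.2
  have h2 : ∏ p ∈ S, (p : ℤ) ^ (Z p k l).card ∣ R := by
    apply Finset.prod_dvd_of_coprime
    · intro p hp q hq hpq
      have hc : Nat.Coprime p q := (Nat.coprime_primes (hS p hp).1 (hS q hq).1).mpr hpq
      exact IsCoprime.pow (Nat.isCoprime_iff_coprime.mpr hc)
    · exact h1
  have h3 : ∏ p ∈ S, (p : ℤ) ^ (Z p k l).card ≤ |R| := by
    apply Int.le_of_dvd (abs_pos.mpr hR0)
    exact (dvd_abs _ _).mpr h2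
  have h4 : ((k : ℤ) + l) ^ (∑ p ∈ S, (Z p k l).card) ≤ ∏ p ∈ S, (p : ℤ) ^ (Z p k l).card := by
    rw [← Finset.prod_pow_eq_pow_sum]
    apply Finset.prod_le_prod
    · intro p _
      positivity
    · intro p hp
      apply pow_le_pow_left₀ (by positivity)
      exact_mod_cast (hS p hp).2
  have h5 : (k + l) ^ (∑ p ∈ S, (Z p k l).card) ≤ (k + l) ^ (k * l) := by
    have := h4.trans (h3.trans hR)
    exact_mod_cast this
  exact (Nat.pow_le_pow_iff_right (by omega)).mp h5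

/-- the signed factorial product `(-1)^n (n-1)! (p-n)!` -/
def W (p n : ℕ) : ℤ := (-1) ^ n * ((n - 1).factorial : ℤ) * ((p - n).factorial : ℤ)

lemma W_succ (p n : ℕ) (hn : 1 ≤ n) (hp : n + 1 ≤ p) :
    W p (n + 1) * ((n : ℤ) - p) = W p n * n := by
  obtain ⟨m, rfl⟩ : ∃ m, n = m + 1 := ⟨n - 1, by omega⟩
  obtain ⟨q, rfl⟩ : ∃ q, p = m + 1 + 1 + q := ⟨p - (m + 1 + 1), by omega⟩
  unfold W
  have e1 : m + 1 + 1 - 1 = m + 1 := by omega
  have e2 : m + 1 - 1 = m := by omega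
  have e3 : m + 1 + 1 + q - (m + 1 + 1) = q := by omega
  have e4 : m + 1 + 1 + q - (m + 1) = q + 1 := by omega
  rw [e1, e2, e3, e4, Nat.factorial_succ, Nat.factorial_succ]
  push_cast
  ring

lemma W_add (p n k : ℕ) (hn : 1 ≤ n) (hp : n + k ≤ p) :
    W p (n + k) * (F ℤ 0 k).eval ((n : ℤ) - 1 - p) = W p n * (F ℤ 0 k).eval ((n : ℤ) - 1) := by
  induction k with
  | zero => simp [F]
  | succ k ih =>
    have ih' := ih (by omega)
    have h1 : ∀ x : ℤ, (F ℤ 0 (k + 1)).eval x = (F ℤ 0 k).eval x * (x + ((k : ℤ) + 1)) := by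
      intro x
      unfold F
      rw [Finset.prod_range_succ, eval_mul]
      simp
    rw [h1, h1]
    have h2 := W_succ p (n + k) (by omega) (by omega)
    have h3 : ((n + k : ℕ) : ℤ) - p = (n : ℤ) - 1 - p + ((k : ℤ) + 1) := by push_cast; ring
    have h4 : ((n + k : ℕ) : ℤ) = (n : ℤ) - 1 + ((k : ℤ) + 1) := by push_cast; ring
    rw [h3, h4] at h2
    rw [← add_assoc n k 1]
    calc W p (n + k + 1) * ((F ℤ 0 k).eval ((n : ℤ) - 1 - p) * ((n : ℤ) - 1 - p + ((k : ℤ) + 1)))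
        = (W p (n + k + 1) * ((n : ℤ) - 1 - p + ((k : ℤ) + 1))) *
            (F ℤ 0 k).eval ((n : ℤ) - 1 - p) := by ring
      _ = (W p (n + k) * (F ℤ 0 k).eval ((n : ℤ) - 1 - p)) * ((n : ℤ) - 1 + ((k : ℤ) + 1)) := by
            rw [h2]; ring
      _ = W p n * ((F ℤ 0 k).eval ((n : ℤ) - 1) * ((n : ℤ) - 1 + ((k : ℤ) + 1))) := by
            rw [ih']; ring

lemma W_coprime (p n : ℕ) (hp : p.Prime) (hn : 1 ≤ n) (hnp : n ≤ p) :
    IsCoprime ((p : ℤ) ^ 2) (W p n) := by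
  apply IsCoprime.pow_left
  unfold W
  have h : ∀ m : ℕ, m < p → IsCoprime (p : ℤ) (m.factorial : ℤ) := by
    intro m hm
    rw [Nat.isCoprime_iff_coprime]
    exact hp.coprime_factorial_of_lt hm
  apply IsCoprime.mul_right
  · apply IsCoprime.mul_right
    · apply IsCoprime.pow_right
      exact isCoprime_one_right.neg_right
    · exact h _ (by omega)
  · exact h _ (by omega)

/-- two equal values modulo `p ^ 2` give a zero of the derivative modulo `p` -/
theorem dvd_of_equal (p n k : ℕ) (c : ℤ) (hp : p.Prime) (hn : 1 ≤ n) (hnk : n + k ≤ p)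
    (h1 : (p : ℤ) ^ 2 ∣ W p n - c) (h2 : (p : ℤ) ^ 2 ∣ W p (n + k) - c) :
    (p : ℤ) ∣ (P ℤ 0 k).eval ((n : ℤ) - 1) := by
  have h3 := W_add p n k hn hnk
  have h4 : (p : ℤ) ^ 2 ∣ W p n * ((F ℤ 0 k).eval ((n : ℤ) - 1 - p)
      - (F ℤ 0 k).eval ((n : ℤ) - 1)) := by
    have h5 : W p n * ((F ℤ 0 k).eval ((n : ℤ) - 1 - p) - (F ℤ 0 k).eval ((n : ℤ) - 1))
        = ((W p n - c) - (W p (n + k) - c)) * (F ℤ 0 k).eval ((n : ℤ) - 1 - p) := by
      rw [mul_sub, ← h3]
      ring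
    rw [h5]
    exact Dvd.dvd.mul_right (dvd_sub h1 h2) _
  have h6 := (W_coprime p n hp hn (by omega)).dvd_of_dvd_mul_left h4
  obtain ⟨z, hz⟩ := Polynomial.binomExpansion (F ℤ 0 k) ((n : ℤ) - 1) (-(p : ℤ))
  have h7 : (F ℤ 0 k).eval ((n : ℤ) - 1 - p) - (F ℤ 0 k).eval ((n : ℤ) - 1)
      = -(p : ℤ) * (P ℤ 0 k).eval ((n : ℤ) - 1) + z * (p : ℤ) ^ 2 := by
    have : (n : ℤ) - 1 - p = (n : ℤ) - 1 + -(p : ℤ) := by ring
    rw [this, hz]
    unfold P
    ring
  rw [h7] at h6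
  have h8 : (p : ℤ) ^ 2 ∣ -(p : ℤ) * (P ℤ 0 k).eval ((n : ℤ) - 1) := by
    have := dvd_sub h6 (Dvd.intro_left z rfl : (p : ℤ) ^ 2 ∣ z * (p : ℤ) ^ 2)
    simpa using this
  obtain ⟨b, hb⟩ := h8
  refine ⟨-b, ?_⟩
  have hp0 : (p : ℤ) ≠ 0 := by exact_mod_cast hp.ne_zero
  apply mul_left_cancel₀ hp0
  linear_combination -hb

lemma P_shift (s k : ℕ) (x : ℤ) : (P ℤ s k).eval x = (P ℤ 0 k).eval (x + s) := by
  rw [P_eval, P_eval]
  apply Finset.sum_congr rfl
  intro j _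
  apply Finset.prod_congr rfl
  intro i _
  push_cast
  ring

/-- three equal values give a common zero -/
theorem mem_Z_of_equal (p n k l : ℕ) (c : ℤ) (hp : p.Prime) (hn : 1 ≤ n) (hl : 1 ≤ l)
    (hnk : n + k + l ≤ p)
    (h1 : (p : ℤ) ^ 2 ∣ W p n - c) (h2 : (p : ℤ) ^ 2 ∣ W p (n + k) - c)
    (h3 : (p : ℤ) ^ 2 ∣ W p (n + k + l) - c) : n - 1 ∈ Z p k l := by
  rw [mem_Z]
  have e : ((n - 1 : ℕ) : ℤ) = (n : ℤ) - 1 := by omega
  refine ⟨by omega, ?_, ?_⟩
  · rw [e]
    exact dvd_of_equal p n k c hp hn (by omega) h1 h2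
  · rw [e, P_shift]
    have h4 := dvd_of_equal p (n + k) l c hp (by omega) hnk h2 h3
    have h5 : (n : ℤ) - 1 + (k : ℕ) = ((n + k : ℕ) : ℤ) - 1 := by push_cast; ring
    rw [h5]
    exact h4

/-- counting by windows of length `L` -/
theorem card_le_windows (T : Finset ℕ) (M N L : ℕ) (hL : 1 ≤ L)
    (hT : T ⊆ Finset.Ioc M (M + N)) :
    T.card ≤ 2 * (N / L + 1) + ∑ k ∈ Finset.Ico 1 L, ∑ l ∈ Finset.Ico 1 L,
      (T.filter (fun n => k + l < L ∧ n + k ∈ T ∧ n + k + l ∈ T)).card := by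
  classical
  set E := (Finset.Ico 1 L).biUnion (fun k => (Finset.Ico 1 L).biUnion (fun l =>
    T.filter (fun n => k + l < L ∧ n + k ∈ T ∧ n + k + l ∈ T))) with hE
  have h1 : E.card ≤ ∑ k ∈ Finset.Ico 1 L, ∑ l ∈ Finset.Ico 1 L,
      (T.filter (fun n => k + l < L ∧ n + k ∈ T ∧ n + k + l ∈ T)).card :=
    Finset.card_biUnion_le.trans (Finset.sum_le_sum fun k _ => Finset.card_biUnion_le)
  have h2 : (T \ E).card ≤ (N / L + 1) * 2 := by
    have hmaps : ∀ n ∈ T \ E, (n - M - 1) / L ∈ range (N / L + 1) := by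
      intro n hn
      have hn' := Finset.mem_Ioc.mp (hT (Finset.mem_sdiff.mp hn).1)
      rw [Finset.mem_range]
      have : (n - M - 1) / L ≤ N / L := Nat.div_le_div_right (by omega)
      omega
    have h3 := Finset.card_le_mul_card_image_of_maps_to hmaps 2 (by
      intro b _
      by_contra hcon
      have h3 : 3 ≤ ((T \ E).filter (fun n => (n - M - 1) / L = b)).card := by omega
      let e := Finset.orderEmbOfCardLe ((T \ E).filter (fun n => (n - M - 1) / L = b)) h3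
      have he : ∀ i, e i ∈ ((T \ E).filter (fun n => (n - M - 1) / L = b)) :=
        fun i => Finset.orderEmbOfCardLe_mem _ h3 i
      have hlt1 : e 0 < e 1 := e.strictMono (by decide)
      have hlt2 : e 1 < e 2 := e.strictMono (by decide)
      have m0 := Finset.mem_filter.mp (he 0)
      have m1 := Finset.mem_filter.mp (he 1)
      have m2 := Finset.mem_filter.mp (he 2)
      have t0 := Finset.mem_sdiff.mp m0.1
      have t1 := Finset.mem_sdiff.mp m1.1
      have t2 := Finset.mem_sdiff.mp m2.1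
      have r0 := Finset.mem_Ioc.mp (hT t0.1)
      have r2 := Finset.mem_Ioc.mp (hT t2.1)
      have hlt : e 2 - e 0 < L := by
        have d0 := Nat.div_add_mod (e 0 - M - 1) L
        have d2 := Nat.div_add_mod (e 2 - M - 1) L
        have q0 := Nat.mod_lt (e 0 - M - 1) (by omega : 0 < L)
        have q2 := Nat.mod_lt (e 2 - M - 1) (by omega : 0 < L)
        rw [m0.2] at d0
        rw [m2.2] at d2
        omega
      apply t0.2
      rw [hE]
      refine Finset.mem_biUnion.mpr ⟨e 1 - e 0, Finset.mem_Ico.mpr ⟨by omega, by omega⟩, ?_⟩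
      refine Finset.mem_biUnion.mpr ⟨e 2 - e 1, Finset.mem_Ico.mpr ⟨by omega, by omega⟩, ?_⟩
      rw [Finset.mem_filter]
      refine ⟨t0.1, by omega, ?_, ?_⟩
      · rw [Nat.add_sub_cancel' hlt1.le]
        exact t1.1
      · rw [Nat.add_sub_cancel' hlt1.le, Nat.add_sub_cancel' hlt2.le]
        exact t2.1)
    rw [Finset.card_range] at h3
    omega
  have h4 : T.card ≤ (T \ E).card + E.card := by
    have : T ⊆ (T \ E) ∪ E := by
      intro x hx
      rw [Finset.mem_union, Finset.mem_sdiff]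
      by_cases h : x ∈ E
      · exact Or.inr h
      · exact Or.inl ⟨hx, h⟩
    exact (Finset.card_le_card this).trans (Finset.card_union_le _ _)
  omega

end Pool.Agent.Helper28.TF
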