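import Mathlib
import Pool.Agent.Helper28.TF.Count

/-! # The main inequality -/

open Finset

namespace Pool.Agent.Helper28.TF

/-- the numbers `n` in the window with a prescribed value modulo `p ^ 2` -/
def T (p : ℕ) (c : ℤ) (M N : ℕ) : Finset ℕ :=
  (Finset.Ioc M (M + N)).filter (fun n => n ≤ p ∧ (p : ℤ) ^ 2 ∣ W p n - c)

lemma mem_T (p : ℕ) (c : ℤ) (M N n : ℕ) : n ∈ T p c M N ↔
    (M < n ∧ n ≤ M + N) ∧ n ≤ p ∧ (p : ℤ) ^ 2 ∣ W p n - c := by
  simp [T]

/-- the main inequality with a free parameter `L` -/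
theorem sum_le_param (S : Finset ℕ) (L N : ℕ) (c : ℕ → ℤ) (M : ℕ → ℕ) (hL : 1 ≤ L)
    (hS : ∀ p ∈ S, p.Prime ∧ L ≤ p) :
    ∑ p ∈ S, (T p (c p) (M p) N).card
      ≤ 2 * S.card * (N / L + 1) + (∑ k ∈ Finset.Ico 1 L, k) ^ 2 := by
  classical
  have h1 : ∀ p ∈ S, (T p (c p) (M p) N).card ≤ 2 * (N / L + 1) +
      ∑ k ∈ Finset.Ico 1 L, ∑ l ∈ Finset.Ico 1 L,
        (if k + l < L then (Z p k l).card else 0) := by
    intro p hp
    have hw := card_le_windows (T p (c p) (M p) N) (M p) N L hL (Finset.filter_subset _ _)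
    refine hw.trans (Nat.add_le_add_left ?_ _)
    apply Finset.sum_le_sum
    intro k hk
    apply Finset.sum_le_sum
    intro l hl
    rw [Finset.mem_Ico] at hk hl
    split_ifs with hkl
    · apply Finset.card_le_card_of_injOn (fun n => n - 1)
      · intro n hn
        have hn' := Finset.mem_filter.mp hn
        have a0 := (mem_T _ _ _ _ _).mp hn'.1
        have a1 := (mem_T _ _ _ _ _).mp hn'.2.2.1
        have a2 := (mem_T _ _ _ _ _).mp hn'.2.2.2
        exact mem_Z_of_equal p n k l (c p) (hS p hp).1 (by omega) hl.1 a2.2.1 a0.2.2 a1.2.2 a2.2.2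
      · intro a ha b hb hab
        have ha' := (mem_T _ _ _ _ _).mp (Finset.mem_filter.mp ha).1
        have hb' := (mem_T _ _ _ _ _).mp (Finset.mem_filter.mp hb).1
        have hab' : a - 1 = b - 1 := hab
        omega
    · rw [Nat.le_zero, Finset.card_eq_zero, Finset.filter_eq_empty_iff]
      rintro n - ⟨h, -⟩
      exact hkl h
  calc ∑ p ∈ S, (T p (c p) (M p) N).card
      ≤ ∑ p ∈ S, (2 * (N / L + 1) + ∑ k ∈ Finset.Ico 1 L, ∑ l ∈ Finset.Ico 1 L,
        (if k + l < L then (Z p k l).card else 0)) := Finset.sum_le_sum h1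
    _ = 2 * S.card * (N / L + 1) + ∑ k ∈ Finset.Ico 1 L, ∑ l ∈ Finset.Ico 1 L,
        ∑ p ∈ S, (if k + l < L then (Z p k l).card else 0) := by
        rw [Finset.sum_add_distrib, Finset.sum_const, smul_eq_mul, Finset.sum_comm]
        congr 1
        · ring
        · apply Finset.sum_congr rfl
          intro k _
          rw [Finset.sum_comm]
    _ ≤ 2 * S.card * (N / L + 1) + ∑ k ∈ Finset.Ico 1 L, ∑ l ∈ Finset.Ico 1 L, k * l := by
        apply Nat.add_le_add_left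
        apply Finset.sum_le_sum
        intro k hk
        apply Finset.sum_le_sum
        intro l hl
        rw [Finset.mem_Ico] at hk hl
        split_ifs with hkl
        · apply sum_card_Z S k l hk.1 hl.1
          intro p hp
          exact ⟨(hS p hp).1, by have := (hS p hp).2; omega⟩
        · simp
    _ = 2 * S.card * (N / L + 1) + (∑ k ∈ Finset.Ico 1 L, k) ^ 2 := by
        congr 1
        rw [sq, Finset.sum_mul_sum]

/-- **The main inequality.** -/
theorem main_inequality (S : Finset ℕ) (y N : ℕ) (c : ℕ → ℤ) (M : ℕ → ℕ)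
    (hS : ∀ p ∈ S, p.Prime ∧ y ≤ p) (hy : 32 * (S.card * N) ≤ y ^ 5) :
    (∑ p ∈ S, ((T p (c p) (M p) N).card : ℝ))
      ≤ 2 * S.card + 3 * ((S.card : ℝ) * N) ^ (4 / 5 : ℝ) := by
  rcases Nat.eq_zero_or_pos N with hN | hN
  · subst hN
    have : ∑ p ∈ S, ((T p (c p) (M p) 0).card : ℝ) = 0 := by
      apply Finset.sum_eq_zero
      intro p _
      simp [T]
    rw [this]
    positivity
  rcases Nat.eq_zero_or_pos S.card with hc | hc
  · rw [Finset.card_eq_zero] at hc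
    subst hc
    simp
  set A : ℝ := (S.card : ℝ) * N with hA
  have hA1 : 1 ≤ A := by
    have h1 : (1 : ℝ) ≤ S.card := by exact_mod_cast hc
    have h2 : (1 : ℝ) ≤ N := by exact_mod_cast hN
    rw [hA]
    nlinarith
  set Q : ℝ := A ^ (1 / 5 : ℝ) with hQ
  have hA0 : 0 ≤ A := by linarith
  have hQ1 : 1 ≤ Q := Real.one_le_rpow hA1 (by norm_num)
  have hQ0 : 0 < Q := by linarith
  have hQ5 : Q ^ 5 = A := by
    rw [hQ, ← Real.rpow_natCast, ← Real.rpow_mul hA0]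
    norm_num
  have hQ4 : Q ^ 4 = A ^ (4 / 5 : ℝ) := by
    rw [hQ, ← Real.rpow_natCast, ← Real.rpow_mul hA0]
    norm_num
  set L : ℕ := ⌈Q⌉₊ with hL
  have hLQ : Q ≤ L := Nat.le_ceil Q
  have hLQ' : (L : ℝ) < Q + 1 := Nat.ceil_lt_add_one hQ0.le
  have hL1 : 1 ≤ L := by
    have : (1 : ℝ) ≤ L := hQ1.trans hLQ
    exact_mod_cast this
  have hLy : L ≤ y := by
    have h1 : (2 * Q) ^ 5 ≤ (y : ℝ) ^ 5 := by
      have h2 : (2 * Q) ^ 5 = 32 * A := by
        rw [mul_pow, hQ5]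
        norm_num
      rw [h2, hA]
      exact_mod_cast hy
    have h3 : 2 * Q ≤ (y : ℝ) :=
      le_of_pow_le_pow_left₀ (by norm_num) (by positivity) h1
    have h4 : (L : ℝ) ≤ y := by linarith
    exact_mod_cast h4
  have hmain := sum_le_param S L N c M hL1 (fun p hp => ⟨(hS p hp).1, hLy.trans (hS p hp).2⟩)
  have hmain' : (∑ p ∈ S, ((T p (c p) (M p) N).card : ℝ))
      ≤ 2 * S.card * ((N / L : ℕ) + 1) + ((∑ k ∈ Finset.Ico 1 L, k : ℕ) : ℝ) ^ 2 := by
    exact_mod_cast hmain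
  have hsum : ((∑ k ∈ Finset.Ico 1 L, k : ℕ) : ℝ) = (L : ℝ) * (L - 1) / 2 := by
    have h1 : ∑ k ∈ Finset.Ico 1 L, k = ∑ k ∈ range L, k := by
      rw [Finset.range_eq_Ico, ← Finset.sum_Ico_consecutive (fun k => k) (Nat.zero_le 1) hL1]
      simp
    rw [h1]
    have h2 := Finset.sum_range_id_mul_two L
    have h3 : ((∑ k ∈ range L, k : ℕ) : ℝ) * 2 = (L : ℝ) * (L - 1) := by
      have h4 : (((∑ k ∈ range L, k) * 2 : ℕ) : ℝ) = ((L * (L - 1) : ℕ) : ℝ) := by
        exact_mod_cast h2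
      push_cast [Nat.cast_sub hL1] at h4 ⊢
      linarith
    linarith
  have hdiv : ((N / L : ℕ) : ℝ) ≤ (N : ℝ) / Q := by
    calc ((N / L : ℕ) : ℝ) ≤ (N : ℝ) / L := Nat.cast_div_le
      _ ≤ (N : ℝ) / Q := by
        apply div_le_div_of_nonneg_left (by positivity) hQ0 hLQ
  have hsq : ((∑ k ∈ Finset.Ico 1 L, k : ℕ) : ℝ) ^ 2 ≤ Q ^ 4 := by
    rw [hsum]
    have h1 : (L : ℝ) * (L - 1) / 2 ≤ Q ^ 2 := by nlinarith
    have h2 : 0 ≤ (L : ℝ) * (L - 1) / 2 := by
      have : (1 : ℝ) ≤ L := by exact_mod_cast hL1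
      have h3 : 0 ≤ (L : ℝ) - 1 := by linarith
      positivity
    calc ((L : ℝ) * (L - 1) / 2) ^ 2 ≤ (Q ^ 2) ^ 2 := pow_le_pow_left₀ h2 h1 2
      _ = Q ^ 4 := by ring
  have hfirst : 2 * (S.card : ℝ) * ((N / L : ℕ) + 1) ≤ 2 * S.card + 2 * Q ^ 4 := by
    have h1 : (S.card : ℝ) * ((N / L : ℕ) : ℝ) ≤ Q ^ 4 := by
      calc (S.card : ℝ) * ((N / L : ℕ) : ℝ) ≤ (S.card : ℝ) * ((N : ℝ) / Q) :=
            mul_le_mul_of_nonneg_left hdiv (by positivity)
        _ = A / Q := by rw [hA]; ring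
        _ = Q ^ 4 := by
            rw [← hQ5]
            field_simp
    linarith
  rw [← hQ4]
  linarith

end Pool.Agent.Helper28.TF
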